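import Pool.Agent.V7H59.CT.Cont

/-!
# Time `n ^ (1 + 1 / d) / log n` on `d`-dimensional cellular automata is in linear space

The polynomial time of cellular automata of any dimension `d` is `P`. The languages which they
decide in time `O(n ^ (1 + 1 / d) / log n)`, for `d = 1` in time `O(n ^ 2 / log n)`, are in `DLBA`.
-/

set_option autoImplicit false

namespace Pool.Agent.V7H59.Alt.CALinSpace

open Pool.Agent.V7H59.CT

/-- Let the `d`-dimensional cellular automaton `M` decide `A` in time `O(n ^ (1 + 1 / d) / log n)`:
for all `x` of length `n ≥ n₀` and all times `t` with `c n ^ (d + 1) ≤ (t log n) ^ d`, the state of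
the origin at time `t` is accepting if and only if `x ∈ A`. Then `A` is in deterministic linear
space. -/
theorem result (d : ℕ) [NeZero d] (M : CellAut d) (c n₀ : ℕ) (A : Set (List Bool))
    (h : ∀ x : List Bool, n₀ ≤ x.length → ∀ t : ℕ,
      c * x.length ^ (d + 1) ≤ (t * Nat.log 2 x.length) ^ d → (x ∈ A ↔ M.accepts x t)) :
    InLinSpace A :=
  containment d M c n₀ A h

end Pool.Agent.V7H59.Alt.CALinSpace
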